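import Pool.Agent.Helper38_LDP.Base

/-! Squad LDP: statements of the modules. -/

namespace Pool.Agent.LDP

open Polynomial
open scoped Polynomial.Bivariate

/-- evaluation of a bivariate polynomial at a point of a field extension -/
noncomputable def ev {L E : Type*} [Field L] [Field E] [Algebra L E] (s t : E) (G : L[X][Y]) : E :=
  (G.map (mapRingHom (algebraMap L E))).evalEval s t

/-- base change of bivariate polynomials -/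
noncomputable def bmap {A B : Type*} [CommRing A] [CommRing B] (φ : A →+* B) (G : A[X][Y]) :
    B[X][Y] := G.map (mapRingHom φ)

/-- dimension of the image of `V ρ (α t) t` modulo an ideal `J` -/
noncomputable def hJ {L : Type*} [Field L] (ρ : ℕ) (J : Ideal L[X][Y]) (t : ℕ) : ℕ :=
  Module.finrank L ((V ρ L ((1 + ρ) * t) t).map (Ideal.Quotient.mkₐ L J).toLinearMap)

/-- DIM -/
def DimStmt : Prop := ∀ (ρ a b : ℕ) (L : Type) [Field L],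
  Module.Finite L (V ρ L a b) ∧ Module.finrank L (V ρ L a b) = dimV ρ a b

/-- MUL -/
def MulStmt : Prop := ∀ (ρ a b a' b' : ℕ) (L : Type) [CommRing L] (g h : L[X][Y]),
  g ∈ V ρ L a b → h ∈ V ρ L a' b' → g * h ∈ V ρ L (a + a') (b + b')

/-- EXA: exact degrees -/
def ExaStmt : Prop := ∀ (ρ : ℕ) (L : Type) [Field L] (g : L[X][Y]), g ≠ 0 →
  ∃ a b : ℕ, g ∈ V ρ L a b ∧ ρ * b ≤ a ∧ b = g.natDegree ∧
    ∀ (h : L[X][Y]) (A B : ℕ), h ≠ 0 → g * h ∈ V ρ L A B →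
      a ≤ A ∧ b ≤ B ∧ h ∈ V ρ L (A - a) (B - b)

/-- BEZ: Bezout bound -/
def BezStmt : Prop := ∀ (ρ a₁ b₁ a₂ b₂ : ℕ) (L : Type) [Field L] (f g : L[X][Y]),
  ρ ≤ 1 → ρ * b₁ ≤ a₁ → ρ * b₂ ≤ a₂ → f ∈ V ρ L a₁ b₁ → g ∈ V ρ L a₂ b₂ →
  Irreducible f → ¬ f ∣ g →
  Module.Finite L (L[X][Y] ⧸ Ideal.span {f, g}) ∧
    Module.finrank L (L[X][Y] ⧸ Ideal.span {f, g}) + ρ * b₁ * b₂ ≤ a₁ * b₂ + a₂ * b₁

/-- IRR: irreducibility of the special family -/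
def IrrStmt : Prop := ∀ (ρ d : ℕ) (L : Type) [Field L] [CharZero L] (lam : L),
  ((ρ = 0 ∧ 3 ≤ d) ∨ (ρ = 1 ∧ d = 2)) → Irreducible (fs ρ d lam)

/-- UNI: units modulo `N - λ` over `ℂ(λ)` -/
def UniStmt : Prop := ∀ (N : ℂ[X][Y]), (∀ c : ℂ, Irreducible (N - C (C c))) →
  ∀ u v : (FractionRing ℂ[X])[X][Y],
    (bmap (algebraMap ℂ (FractionRing ℂ[X])) N
        - C (C (algebraMap ℂ[X] (FractionRing ℂ[X]) X))) ∣ u * v - 1 →
    ∃ c : FractionRing ℂ[X], c ≠ 0 ∧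
      (bmap (algebraMap ℂ (FractionRing ℂ[X])) N
        - C (C (algebraMap ℂ[X] (FractionRing ℂ[X]) X))) ∣ u - C (C c)

/-- MON: `R` is monic of degree `d (m + d - 1)` -/
def MonStmt : Prop := ∀ (ρ d m : ℕ) (L : Type) [CommRing L] [Nontrivial L] (f : L[X][Y]),
  Par ρ d m → Good ρ d f → (RR m d f).Monic ∧ (RR m d f).natDegree = d * (m + d - 1)

/-- NUM: the numerator of a multiple of `f` -/
def NumStmt : Prop := ∀ (m d b : ℕ) (L : Type) [CommRing L] (f H : L[X][Y]),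
  1 ≤ d → f.natDegree ≤ d → H.natDegree ≤ b →
  num m d (b + d) f (f * H) = f.coeff 0 * f.coeff d * RR m d f * num m d b f H

/-- SPE: the separation property for the special family over `ℂ(λ)` -/
def SpeStmt : Prop := ∀ ρ d m : ℕ, Par ρ d m →
  Sep ρ m d (fs ρ d (algebraMap ℂ[X] (FractionRing ℂ[X]) X))

/-- SEM: semicontinuity -/
def SemStmt : Prop := ∀ (ρ d m : ℕ) (A K L : Type) [CommRing A] [IsDomain A] [Field K]
  [Algebra A K] [IsFractionRing A K] [Field L] (φ : A →+* L) (f : A[X][Y]),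
  Par ρ d m → Good ρ d f → Sep ρ m d (bmap φ f) → Sep ρ m d (bmap (algebraMap A K) f)

/-- RE1: forms of degree `t` restrict to `V ρ (α t) t` -/
def Re1Stmt : Prop := ∀ (ρ n t : ℕ) (L : Type) [CommRing L] (h : MvPolynomial (Fin (n + 2)) L),
  ρ ≤ 1 → h ∈ MvPolynomial.homogeneousSubmodule (Fin (n + 2)) L t →
  res ρ n L h ∈ V ρ L ((1 + ρ) * t) t

/-- RE2: every element of `V ρ (α t) t` is the restriction of a form of degree `t` -/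
def Re2Stmt : Prop := ∀ (ρ n t : ℕ) (L : Type) [CommRing L] (g : L[X][Y]),
  ρ ≤ 1 → 2 + ρ ≤ n → g ∈ V ρ L ((1 + ρ) * t) t →
  ∃ h ∈ MvPolynomial.homogeneousSubmodule (Fin (n + 2)) L t, res ρ n L h = g

/-- GEN: the generic restriction -/
def GenStmt : Prop := ∀ ρ n d : ℕ, ((ρ = 0 ∧ 3 ≤ d) ∨ (ρ = 1 ∧ d = 2)) → 2 + ρ ≤ n →
  Good ρ d (fA ρ n d) ∧ bmap (algebraMap (AA n d) (KK n d)) (fA ρ n d) = fK ρ n d ∧
  FK n d ∈ MvPolynomial.homogeneousSubmodule (Fin (n + 2)) (KK n d) d ∧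
  ∀ (L : Type) [CommRing L] [Algebra ℂ L] (f : L[X][Y]), Good ρ d f →
    ∃ φ : AA n d →+* L, bmap φ (fA ρ n d) = f

/-- RIR: the generic `R` is irreducible -/
def RirStmt : Prop := ∀ ρ n d m : ℕ, Par ρ d m → 2 + ρ ≤ n →
  Irreducible (RR m d (fK ρ n d))

/-- PTS: the point `P` -/
def PtsStmt : Prop := ∀ (ρ d m : ℕ) (K : Type) [Field K] (f : K[X][Y]),
  Par ρ d m → Good ρ d f → Irreducible (RR m d f) →
  ∃ (E : Type) (_ : Field E) (_ : Algebra K E) (s t : E),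
    Module.Finite K E ∧ Module.finrank K E = d * (m + d - 1) ∧
    aeval s (RR m d f) = 0 ∧
    (∀ e : E, ∃ p : K[X], aeval s p = e) ∧
    (∀ (b : ℕ) (G : K[X][Y]), G.natDegree ≤ b → (ev s t G = 0 ↔ RR m d f ∣ num m d b f G)) ∧
    ev s t f = 0

/-- IDL: the homogeneous ideal of the point -/
def IdlStmt : Prop := ∀ (ρ n : ℕ) (K E : Type) [Field K] [Field E] [Algebra K E]
  [Module.Finite K E] (s t : E), ρ ≤ 1 → 2 + ρ ≤ n → (∀ e : E, ∃ p : K[X], aeval s p = e) →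
  ∃ P : Ideal (MvPolynomial (Fin (n + 2)) K), IsPt (Module.finrank K E) P ∧
    ∀ (u : ℕ), ∀ h ∈ MvPolynomial.homogeneousSubmodule (Fin (n + 2)) K u,
      (h ∈ P ↔ ev s t (res ρ n K h) = 0)

/-- HIL: Bezout by Hilbert functions -/
def HilStmt : Prop := ∀ (N : ℕ) (L : Type) [Field L] (P Q : Ideal (MvPolynomial (Fin N) L))
  (k D e T : ℕ) (c : ℤ), Q.IsPrime → IsHomog Q → IsHomog P → Q ≤ P →
  (∀ t ≥ T, (hilb Q t : ℤ) = k * t + c) → (∀ t ≥ T, hilb P t = D) →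
  ∀ h ∈ MvPolynomial.homogeneousSubmodule (Fin N) L e, h ∈ P → h ∉ Q →
    D ≤ k * e ∧ (D = k * e → ∀ t ≥ T,
      ∀ p ∈ MvPolynomial.homogeneousSubmodule (Fin N) L (t + e), p ∈ P →
        ∃ v ∈ MvPolynomial.homogeneousSubmodule (Fin N) L t, p - h * v ∈ Q)

/-- CUR: prime ideals containing the equations of `T` -/
def CurStmt : Prop := ∀ (ρ n : ℕ) (K : Type) [Field K] (Q : Ideal (MvPolynomial (Fin (n + 2)) K)),
  ρ ≤ 1 → 2 + ρ ≤ n → Q.IsPrime →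
  (∀ i : Fin (n + 2), i.1 = 3 → MvPolynomial.X i ∉ Q) →
  (∀ i : Fin (n + 2), 4 + ρ ≤ i.1 → MvPolynomial.X i ∈ Q) →
  (∀ i₀ i₁ i₂ i₃ : Fin (n + 2), i₀.1 = 0 → i₁.1 = 1 → i₂.1 = 2 → i₃.1 = 3 →
    MvPolynomial.X i₀ * MvPolynomial.X i₃ - MvPolynomial.X i₁ * MvPolynomial.X i₂ ∈ Q) →
  (ρ = 1 → ∀ i₁ i₃ i₄ : Fin (n + 2), i₁.1 = 1 → i₃.1 = 3 → i₄.1 = 4 →
    MvPolynomial.X i₄ * MvPolynomial.X i₃ - MvPolynomial.X i₁ ^ 2 ∈ Q) →
  ∃ J : Ideal K[X][Y], J.IsPrime ∧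
    ∀ (t : ℕ), ∀ h ∈ MvPolynomial.homogeneousSubmodule (Fin (n + 2)) K t,
      (h ∈ Q ↔ res ρ n K h ∈ J)

/-- CHI: Hilbert function through the restriction -/
def ChiStmt : Prop := ∀ (ρ n : ℕ) (K : Type) [Field K] (Q : Ideal (MvPolynomial (Fin (n + 2)) K))
  (J : Ideal K[X][Y]) (t : ℕ), ρ ≤ 1 → 2 + ρ ≤ n →
  (∀ h ∈ MvPolynomial.homogeneousSubmodule (Fin (n + 2)) K t, (h ∈ Q ↔ res ρ n K h ∈ J)) →
  hilb Q t = hJ ρ J t

/-- PRI: prime ideals with linear Hilbert function are principal -/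
def PriStmt : Prop := ∀ (ρ k T : ℕ) (c : ℤ) (K : Type) [Field K] (J : Ideal K[X][Y]),
  ρ ≤ 1 → 1 ≤ k → J.IsPrime →
  (∀ t ≥ T, (hJ ρ J t : ℤ) = k * t + c) →
  ∃ (a b : ℕ) (g : K[X][Y]), g ≠ 0 ∧ a + b = k ∧ g ∈ V ρ K a b ∧ J = Ideal.span {g}

/-- the result for `d ≥ 3` -/
def Main0 : Prop := ∀ n d k : ℕ, 2 ≤ n → 3 ≤ d → d ≤ k →
  ∃ P : Ideal (MvPolynomial (Fin (n + 2)) (KK n d)), IsPt (k * d) P ∧ FK n d ∈ P ∧
    ∀ Q, IsCrv k Q → Q ≤ P → FK n d ∈ Q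

/-- TWO: no intermediate fields (`d = 2`, cubic scroll) -/
def TwoStmt : Prop := ∀ (n m : ℕ) (E : Type) [Field E] [Algebra (KK n 2) E] (s : E),
  3 ≤ n → 2 ≤ m → (∀ e : E, ∃ p : (KK n 2)[X], aeval s p = e) →
  aeval s (RR m 2 (fK 1 n 2)) = 0 →
  ∀ x : E, (∃ c : KK n 2, algebraMap (KK n 2) E c = x) ∨
    (∀ e : E, ∃ p : (KK n 2)[X], aeval x p = e)

/-- CON: quadrics through the point are multiples of `F` modulo the curve -/
def ConStmt : Prop := ∀ (ρ n k T : ℕ) (c : ℤ) (K E : Type) [Field K] [Field E] [Algebra K E]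
  [Module.Finite K E] (s t : E) (P Q : Ideal (MvPolynomial (Fin (n + 2)) K))
  (F q : MvPolynomial (Fin (n + 2)) K),
  ρ ≤ 1 → 2 + ρ ≤ n → 1 ≤ k → Module.finrank K E = 2 * k →
  (∀ e : E, ∃ p : K[X], aeval s p = e) →
  (∀ x : E, (∃ c : K, algebraMap K E c = x) ∨ (∀ e : E, ∃ p : K[X], aeval x p = e)) →
  IsHomog P → (∀ u ≥ T, hilb P u = 2 * k) →
  (∀ (u : ℕ), ∀ h ∈ MvPolynomial.homogeneousSubmodule (Fin (n + 2)) K u,
      (h ∈ P ↔ ev s t (res ρ n K h) = 0)) →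
  Q.IsPrime → IsHomog Q → Q ≤ P → (∀ u ≥ T, (hilb Q u : ℤ) = k * u + c) →
  F ∈ MvPolynomial.homogeneousSubmodule (Fin (n + 2)) K 2 → F ∈ P → F ∉ Q →
  q ∈ MvPolynomial.homogeneousSubmodule (Fin (n + 2)) K 2 → q ∈ P → q ∉ Q →
  ∃ a : K, q - MvPolynomial.C a * F ∈ Q

/-- the result for `d = 2`, `n ≥ 3` -/
def Main1 : Prop := ∀ n k : ℕ, 3 ≤ n → 3 ≤ k →
  ∃ P : Ideal (MvPolynomial (Fin (n + 2)) (KK n 2)), IsPt (k * 2) P ∧ FK n 2 ∈ P ∧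
    ∀ Q, IsCrv k Q → Q ≤ P → FK n 2 ∈ Q

end Pool.Agent.LDP
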