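import Mathlib

/-! Squad LDP (MP_366d03_ag): large degree points on universal hypersurfaces. Basic definitions. -/

namespace Pool.Agent.LDP

open Polynomial
open scoped Polynomial.Bivariate

/-! ### Bivariate polynomials `L[X][Y]` (X = s, Y = t) -/

/-- exponents `(i,j)` of `X^i Y^j` with `j ≤ b` and `i + ρ j ≤ a` -/
def V (ρ : ℕ) (L : Type*) [CommRing L] (a b : ℕ) : Submodule L (L[X][Y]) where
  carrier := {g | ∀ i j, (g.coeff j).coeff i ≠ 0 → j ≤ b ∧ i + ρ * j ≤ a}
  zero_mem' := by intro i j h; simp at h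
  add_mem' := by
    intro g h hg hh i j hij
    by_cases h1 : (g.coeff j).coeff i = 0
    · by_cases h2 : (h.coeff j).coeff i = 0
      · simp [h1, h2] at hij
      · exact hh i j h2
    · exact hg i j h1
  smul_mem' := by
    intro c g hg i j hij
    apply hg i j
    intro h0
    apply hij
    simp [Polynomial.coeff_smul, h0]

/-- number of exponents of `V ρ L a b` -/
def dimV (ρ a b : ℕ) : ℕ := ∑ j ∈ Finset.range (b + 1), (a + 1 - ρ * j)

/-- the polynomial `w = X^m f_d` -/
noncomputable def wP {L : Type*} [CommRing L] (m d : ℕ) (f : L[X][Y]) : L[X] :=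
  X ^ m * f.coeff d

/-- `w^b G(X, - f_0 / w)` -/
noncomputable def num {L : Type*} [CommRing L] (m d b : ℕ) (f G : L[X][Y]) : L[X] :=
  ∑ j ∈ Finset.range (b + 1), G.coeff j * (-(f.coeff 0)) ^ j * (wP m d f) ^ (b - j)

/-- the polynomial `R` with `f_d R = w^d - sum_j f_j (-f_0)^(j-1) w^(d-j)` -/
noncomputable def RR {L : Type*} [CommRing L] (m d : ℕ) (f : L[X][Y]) : L[X] :=
  X ^ m * (wP m d f) ^ (d - 1)
    - (∑ j ∈ Finset.Ico 1 d, f.coeff j * (-(f.coeff 0)) ^ (j - 1)
        * (X ^ m * (wP m d f) ^ (d - 1 - j)))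
    - (-(f.coeff 0)) ^ (d - 1)

/-- `f` lies in `V ρ (α d) d`, `α = 1 + ρ`, with corner coefficient one -/
structure Good (ρ d : ℕ) {L : Type*} [CommRing L] (f : L[X][Y]) : Prop where
  mem : f ∈ V ρ L ((1 + ρ) * d) d
  corner : (f.coeff d).coeff d = 1

/-- admissible parameters -/
def Par (ρ d m : ℕ) : Prop := (ρ = 0 ∧ 3 ≤ d ∧ 1 ≤ m) ∨ (ρ = 1 ∧ d = 2 ∧ 2 ≤ m)

/-- the separation property (E): no curve of degree at most `m+d-1` through `P` except `f = 0` -/
def Sep (ρ m d : ℕ) {L : Type*} [CommRing L] (f : L[X][Y]) : Prop :=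
  ∀ (a b : ℕ) (G : L[X][Y]), a + b ≤ m + d - 1 → G ∈ V ρ L a b →
    RR m d f ∣ num m d b f G → f ∣ G

/-- the special family `X^(αd) + X - λ + Y^(d-1) + X^d Y^d` -/
noncomputable def fs (ρ d : ℕ) {L : Type*} [CommRing L] (lam : L) : L[X][Y] :=
  C (X ^ ((1 + ρ) * d) + X - C lam) + Y ^ (d - 1) + C (X ^ d) * Y ^ d

/-! ### The parametrisation of the surface `T` -/

/-- images of the coordinates: `x_0 = XY, x_1 = X, x_2 = Y, x_3 = 1, x_4 = X^2` (only if `ρ = 1`),
all other coordinates are `0` -/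
noncomputable def th (ρ : ℕ) (L : Type*) [CommRing L] (i : ℕ) : L[X][Y] :=
  if i = 0 then C X * Y else if i = 1 then C X else if i = 2 then Y else if i = 3 then 1
  else if i = 4 ∧ ρ = 1 then C (X ^ 2) else 0

/-- restriction of forms to `T` -/
noncomputable def res (ρ n : ℕ) (L : Type*) [CommRing L] :
    MvPolynomial (Fin (n + 2)) L →ₐ[L] L[X][Y] :=
  MvPolynomial.aeval (fun i : Fin (n + 2) => th ρ L i.1)

/-! ### The universal hypersurface -/

/-- monomials of degree `d` in `x_0, …, x_{n+1}` other than `x_0^d` -/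
def Coef (n d : ℕ) : Type :=
  {m : Fin (n + 2) →₀ ℕ // m.degree = d ∧ m ≠ Finsupp.single 0 d}

/-- coordinate ring of the chart `c_{x_0^d} = 1` of `B_{n,d}` -/
abbrev AA (n d : ℕ) : Type := MvPolynomial (Coef n d) ℂ

/-- the function field of `B_{n,d}` -/
abbrev KK (n d : ℕ) : Type := FractionRing (AA n d)

open Classical in
/-- the coefficient of the monomial `m` -/
noncomputable def cf (n d : ℕ) (m : Fin (n + 2) →₀ ℕ) : AA n d :=
  if h : m.degree = d ∧ m ≠ Finsupp.single 0 d then MvPolynomial.X ⟨m, h⟩ else 1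

/-- the universal form over the polynomial ring -/
noncomputable def FA (n d : ℕ) : MvPolynomial (Fin (n + 2)) (AA n d) :=
  ∑ m ∈ (Finset.univ : Finset (Fin (n + 2))).finsuppAntidiag d, MvPolynomial.monomial m (cf n d m)

/-- the universal form over the function field -/
noncomputable def FK (n d : ℕ) : MvPolynomial (Fin (n + 2)) (KK n d) :=
  MvPolynomial.map (algebraMap (AA n d) (KK n d)) (FA n d)

/-- restriction of the universal form to `T`, over the polynomial ring -/
noncomputable def fA (ρ n d : ℕ) : (AA n d)[X][Y] := res ρ n (AA n d) (FA n d)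

/-- restriction of the universal form to `T`, over the function field -/
noncomputable def fK (ρ n d : ℕ) : (KK n d)[X][Y] := res ρ n (KK n d) (FK n d)

/-! ### Closed points and curves as homogeneous prime ideals -/

/-- Hilbert function of `S / I` in degree `t` -/
noncomputable def hilb {σ L : Type*} [Field L] (I : Ideal (MvPolynomial σ L)) (t : ℕ) : ℕ :=
  Module.finrank L (MvPolynomial.homogeneousSubmodule σ L t ⧸
    (I.restrictScalars L).comap (MvPolynomial.homogeneousSubmodule σ L t).subtype)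

/-- homogeneous ideal: closed under homogeneous components -/
def IsHomog {σ L : Type*} [Field L] (I : Ideal (MvPolynomial σ L)) : Prop :=
  ∀ p ∈ I, ∀ t : ℕ, MvPolynomial.homogeneousComponent t p ∈ I

/-- closed point of degree `e` of projective space -/
def IsPt {σ L : Type*} [Field L] (e : ℕ) (P : Ideal (MvPolynomial σ L)) : Prop :=
  P.IsPrime ∧ IsHomog P ∧
    ∃ T : ℕ, ∀ t ≥ T, hilb P t = e

/-- integral curve of degree `k` in projective space -/
def IsCrv {σ L : Type*} [Field L] (k : ℕ) (Q : Ideal (MvPolynomial σ L)) : Prop :=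
  Q.IsPrime ∧ IsHomog Q ∧
    ∃ (c : ℤ) (T : ℕ), ∀ t ≥ T, (hilb Q t : ℤ) = k * t + c

end Pool.Agent.LDP
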