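import Pool.Agent.Helper38_LDP.Stmts

/-! Definitions used in the final statement of MP_366d03_ag, and their comparison with the
definitions of `Base`. The types `Coef`, `AA`, `KK` are those of `Base`. -/

namespace Pool.Agent.LDP.Fin

/-! ### Closed points and curves as homogeneous prime ideals -/

/-- `dim A / (A ∩ B)` -/
noncomputable def codim {L M : Type} [Field L] [AddCommGroup M] [Module L M]
    (A B : Submodule L M) : ℕ :=
  Module.finrank L (A ⧸ B.comap A.subtype)

/-- Hilbert function of `S / I` in degree `t`: the dimension of the space of forms of degree `t`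
modulo those in `I` -/
noncomputable def hilb {σ L : Type} [Field L] (I : Ideal (MvPolynomial σ L)) (t : ℕ) : ℕ :=
  codim (MvPolynomial.homogeneousSubmodule σ L t) (I.restrictScalars L)

/-- homogeneous ideal: closed under homogeneous components -/
def IsHomog {σ L : Type} [Field L] (I : Ideal (MvPolynomial σ L)) : Prop :=
  ∀ p ∈ I, ∀ t : ℕ, MvPolynomial.homogeneousComponent t p ∈ I

/-- closed point of degree `e` of projective space: homogeneous prime ideal with Hilbert
polynomial `e` -/
def IsPt {σ L : Type} [Field L] (e : ℕ) (P : Ideal (MvPolynomial σ L)) : Prop :=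
  P.IsPrime ∧ IsHomog P ∧ ∃ T : ℕ, ∀ t ≥ T, hilb P t = e

/-- integral curve of degree `k` in projective space: homogeneous prime ideal with Hilbert
polynomial `k t + c` -/
def IsCrv {σ L : Type} [Field L] (k : ℕ) (Q : Ideal (MvPolynomial σ L)) : Prop :=
  Q.IsPrime ∧ IsHomog Q ∧ ∃ (c : ℤ) (T : ℕ), ∀ t ≥ T, (hilb Q t : ℤ) = k * t + c

/-- the hypersurface `F = 0` has a closed point of degree `e` which lies on no integral curve of
degree `k` other than the curves contained in the hypersurface -/
def HasPt {σ L : Type} [Field L] (F : MvPolynomial σ L) (e k : ℕ) : Prop :=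
  ∃ P : Ideal (MvPolynomial σ L), IsPt e P ∧ F ∈ P ∧
    ∀ Q : Ideal (MvPolynomial σ L), IsCrv k Q → Q ≤ P → F ∈ Q

/-! ### The universal hypersurface -/

/-- `m` is the exponent of a monomial of degree `d` in `x_0, …, x_{n+1}` other than `x_0^d` -/
def IsCoef (n d : ℕ) (m : Fin (n + 2) →₀ ℕ) : Prop :=
  m.degree = d ∧ m ≠ Finsupp.single 0 d

open Classical in
/-- the coefficient of the monomial `m`: the variable `c_m`, or `1` for `x_0^d` -/
noncomputable def cf (n d : ℕ) (m : Fin (n + 2) →₀ ℕ) : AA n d :=
  if h : IsCoef n d m then MvPolynomial.X (⟨m, h⟩ : Coef n d) else 1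

/-- the form of degree `d` in `x_0, …, x_{n+1}` with coefficients `c` -/
noncomputable def form {L : Type} [CommRing L] (n d : ℕ) (c : (Fin (n + 2) →₀ ℕ) → L) :
    MvPolynomial (Fin (n + 2)) L :=
  ∑ m ∈ (Finset.univ : Finset (Fin (n + 2))).finsuppAntidiag d, MvPolynomial.monomial m (c m)

/-- the polynomial `p` over the fraction field -/
noncomputable def toFrac {σ A : Type} [CommRing A] (p : MvPolynomial σ A) :
    MvPolynomial σ (FractionRing A) :=
  MvPolynomial.map (algebraMap A (FractionRing A)) p

/-- the universal form of degree `d` over the function field of `B_{n,d}` -/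
noncomputable def FK (n d : ℕ) : MvPolynomial (Fin (n + 2)) (KK n d) :=
  toFrac (form n d (cf n d))

/-! ### Comparison -/

theorem cf_eq (n d : ℕ) (m : Fin (n + 2) →₀ ℕ) : cf n d m = Pool.Agent.LDP.cf n d m := by
  unfold cf Pool.Agent.LDP.cf
  by_cases h : m.degree = d ∧ m ≠ Finsupp.single 0 d
  · rw [dif_pos h]
    exact dif_pos (c := IsCoef n d m) h
  · rw [dif_neg h]
    exact dif_neg (c := IsCoef n d m) h

theorem FK_eq (n d : ℕ) : FK n d = Pool.Agent.LDP.FK n d := by
  unfold FK Pool.Agent.LDP.FK toFrac form FA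
  congr 1
  apply Finset.sum_congr rfl
  intro m _
  rw [cf_eq]

theorem hilb_eq {σ L : Type} [Field L] (I : Ideal (MvPolynomial σ L)) (t : ℕ) :
    hilb I t = Pool.Agent.LDP.hilb I t := rfl

theorem hasPt_of {σ L : Type} [Field L] (F : MvPolynomial σ L) (e k : ℕ)
    (h : ∃ P : Ideal (MvPolynomial σ L),
      Pool.Agent.LDP.IsPt e P ∧ F ∈ P ∧
        ∀ Q, Pool.Agent.LDP.IsCrv k Q → Q ≤ P → F ∈ Q) :
    HasPt F e k := h

end Pool.Agent.LDP.Fin
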