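import Pool.Agent.Helper38_LDP.Quad
import Pool.Agent.Helper47_LDP.Main0

/-! MAIN1 -/

namespace Pool.Agent.LDP.H38

open Polynomial
open scoped Polynomial.Bivariate

lemma lin_coeffs {K : Type} [Field K] (f : K[X][Y]) (hf : 2 ≤ f.natDegree) (a₁ a₂ a₃ : K)
    (h : f ∣ C (C a₁) * Y - C (C a₂) * C X + C (C a₃)) : a₁ = 0 ∧ a₂ = 0 ∧ a₃ = 0 := by
  have hc1 : (C (C a₁) * Y - C (C a₂) * C X + C (C a₃) : K[X][Y]).coeff 1 = C a₁ := by
    rw [coeff_add, coeff_sub, coeff_C_mul, coeff_C_mul, coeff_X_one, coeff_C, coeff_C,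
      if_neg one_ne_zero, if_neg one_ne_zero]
    ring
  have hc0 : (C (C a₁) * Y - C (C a₂) * C X + C (C a₃) : K[X][Y]).coeff 0 =
      -(C a₂ * X) + C a₃ := by
    rw [coeff_add, coeff_sub, coeff_C_mul, coeff_C_mul, coeff_X_zero, coeff_C_zero, coeff_C_zero]
    ring
  have h0 : (C (C a₁) * Y - C (C a₂) * C X + C (C a₃) : K[X][Y]) = 0 := by
    by_contra hne
    have h1 := natDegree_le_of_dvd h hne
    have h2 : (C (C a₁) * Y - C (C a₂) * C X + C (C a₃) : K[X][Y]).natDegree ≤ 1 := by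
      rw [← map_mul]
      have e1 : (C (C a₁) * Y : K[X][Y]).natDegree ≤ 1 :=
        (natDegree_C_mul_le _ _).trans natDegree_X_le
      have e2 : (C (C a₂ * X) : K[X][Y]).natDegree ≤ 1 := by
        rw [natDegree_C]; exact Nat.zero_le _
      have e3 : (C (C a₃) : K[X][Y]).natDegree ≤ 1 := by
        rw [natDegree_C]; exact Nat.zero_le _
      exact (natDegree_add_le_of_le (natDegree_sub_le_of_le e1 e2) e3).trans (by simp)
    omega
  rw [h0, coeff_zero] at hc1 hc0
  have h1 : a₁ = 0 := C_eq_zero.mp hc1.symm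
  have h2 : a₂ = 0 := by
    have := congrArg (fun g => Polynomial.coeff g 1) hc0
    simp only [coeff_zero, coeff_add, coeff_neg, coeff_C_mul, coeff_X_one, coeff_C,
      if_neg one_ne_zero, mul_one, add_zero] at this
    exact neg_eq_zero.mp this.symm
  have h3 : a₃ = 0 := by
    have := congrArg (fun g => Polynomial.coeff g 0) hc0
    simp only [coeff_zero, coeff_add, coeff_neg, coeff_C_mul, coeff_X_zero, coeff_C_zero,
      mul_zero, neg_zero, zero_add] at this
    exact this.symm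
  exact ⟨h1, h2, h3⟩

theorem main1 (hSpe : SpeStmt) (hSem : SemStmt) (hGen : GenStmt) (hRir : RirStmt)
    (hPts : PtsStmt) (hIdl : IdlStmt) (hHil : HilStmt) (hCur : CurStmt) (hChi : ChiStmt)
    (hPri : PriStmt) (hRe2 : Re2Stmt) (hTwo : TwoStmt) (hCon : ConStmt) : Main1 := by
  intro n k hn hk
  have hpar : Par 1 2 (k - 1) := Or.inr ⟨rfl, rfl, by omega⟩
  have hkm : k - 1 + 2 - 1 = k := by omega
  obtain ⟨hgood, hsep, hhom, E, _, _, s, t, P, hfin, hrank, hs, hgen, hnum, hev, hP, hmem, hFP⟩ :=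
    H47.setup hSpe hSem hGen hRir hPts hIdl 1 n 2 (k - 1) hpar (by omega)
  rw [hkm] at hP hrank
  refine ⟨P, by rw [mul_comm]; exact hP, hFP, ?_⟩
  intro Q hQ hQP
  by_contra hFQ
  have htwo := hTwo n (k - 1) E s hn (by omega) hgen hs
  have hnd : 2 ≤ (fK 1 n 2).natDegree := by
    apply le_natDegree_of_ne_zero
    intro h0
    have := hgood.corner
    rw [h0] at this
    simp at this
  have hlin : ∀ a₁ a₂ a₃ : KK n 2, ev s t (C (C a₁) * Y - C (C a₂) * C X + C (C a₃)) = 0 →
      a₁ = 0 ∧ a₂ = 0 ∧ a₃ = 0 := by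
    intro a₁ a₂ a₃ h0
    have hV : (C (C a₁) * Y - C (C a₂) * C X + C (C a₃) : (KK n 2)[X][Y]) ∈
        V 1 (KK n 2) 1 1 := by
      intro i j hij
      rw [coeff_add, coeff_sub, coeff_C_mul, ← map_mul, coeff_C, coeff_C, coeff_X] at hij
      rcases Nat.lt_trichotomy j 1 with hj | hj | hj
      · have hj0 : j = 0 := by omega
        subst hj0
        rw [if_neg one_ne_zero, mul_zero, if_pos rfl, if_pos rfl, zero_sub, coeff_add, coeff_neg,
          coeff_C_mul, coeff_X, coeff_C] at hij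
        refine ⟨Nat.zero_le _, ?_⟩
        by_contra hlt
        apply hij
        rw [if_neg (by omega), if_neg (by omega)]
        ring
      · subst hj
        rw [if_pos rfl, if_neg one_ne_zero, if_neg one_ne_zero, mul_one, sub_zero, add_zero,
          coeff_C] at hij
        have hi : i = 0 := by
          by_contra hi
          rw [if_neg hi] at hij
          exact hij rfl
        subst hi
        exact ⟨le_rfl, by simp⟩
      · exfalso
        apply hij
        rw [if_neg (by omega), if_neg (by omega), if_neg (by omega), mul_zero, sub_zero, add_zero,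
          coeff_zero]
    have h1 := (hnum 1 _ (H47.natDegree_of_mem_V hV)).mp h0
    exact lin_coeffs (fK 1 n 2) hnd a₁ a₂ a₃ (hsep 1 1 _ (by omega) hV h1)
  obtain ⟨h3, h5, hq1, hq2⟩ := quadrics hHil hCon n k hn hk s t P Q (FK n 2) hrank hgen htwo hP
    hmem hQ hQP hhom hFP hFQ hlin
  exact hFQ (H47.common hCur hChi hPri hRe2 1 n 2 (k - 1) hpar (by omega) (KK n 2) E (FK n 2) hhom
    hsep s t hnum hev P Q hmem (by rw [hkm]; exact hQ) hQP h5 hq1 (fun _ => hq2))

end Pool.Agent.LDP.H38
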