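import Pool.Agent.Helper38_LDP.Stmts

/-! Squad LDP: the quadrics vanish on the curve (`ρ = 1`, `d = 2`). -/

namespace Pool.Agent.LDP.H38

open Polynomial
open scoped Polynomial.Bivariate

variable {K E : Type} [Field K] [Field E] [Algebra K E]

lemma ev_add (s t : E) (g h : K[X][Y]) : ev s t (g + h) = ev s t g + ev s t h := by
  unfold ev; simp [evalEval]

lemma ev_sub (s t : E) (g h : K[X][Y]) : ev s t (g - h) = ev s t g - ev s t h := by
  unfold ev; simp [evalEval]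

lemma ev_mul (s t : E) (g h : K[X][Y]) : ev s t (g * h) = ev s t g * ev s t h := by
  unfold ev; simp [evalEval]

lemma ev_zero (s t : E) : ev s t (0 : K[X][Y]) = 0 := by
  unfold ev; simp [evalEval]

lemma ev_one (s t : E) : ev s t (1 : K[X][Y]) = 1 := by
  unfold ev; simp [evalEval]

lemma res_X (ρ n : ℕ) (i : Fin (n + 2)) :
    res ρ n K (MvPolynomial.X i) = th ρ K i.1 := by
  unfold res; simp

lemma res_C (ρ n : ℕ) (c : K) :
    res ρ n K (MvPolynomial.C c) = C (C c) := by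
  unfold res
  rw [MvPolynomial.aeval_C]
  rfl

lemma th0 (ρ : ℕ) : th ρ K 0 = C X * Y := by unfold th; simp
lemma th1 (ρ : ℕ) : th ρ K 1 = C X := by unfold th; simp
lemma th2 (ρ : ℕ) : th ρ K 2 = Y := by unfold th; simp
lemma th3 (ρ : ℕ) : th ρ K 3 = 1 := by unfold th; simp
lemma th4 : th 1 K 4 = C (X ^ 2) := by unfold th; simp
lemma th5 (ρ i : ℕ) (hi : 4 + ρ ≤ i) : th ρ K i = 0 := by
  unfold th
  rw [if_neg (by omega), if_neg (by omega), if_neg (by omega), if_neg (by omega), if_neg]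
  omega

/-- linear forms in `P` are in `Q` (`D > k`) -/
lemma low_forms (hHil : HilStmt) {N : ℕ} (P Q : Ideal (MvPolynomial (Fin N) K)) (k D e : ℕ)
    (hDk : k * e < D)
    (hP : IsPt D P) (hQ : IsCrv k Q) (hQP : Q ≤ P) (h : MvPolynomial (Fin N) K)
    (hh : h ∈ MvPolynomial.homogeneousSubmodule (Fin N) K e) (hhP : h ∈ P) : h ∈ Q := by
  by_contra hhQ
  obtain ⟨hPp, hPh, T1, hT1⟩ := hP
  obtain ⟨hQp, hQh, c, T2, hT2⟩ := hQ
  have := hHil N K P Q k D e (max T1 T2) c hQp hQh hPh hQP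
    (fun t ht => hT2 t (le_trans (le_max_right _ _) ht))
    (fun t ht => hT1 t (le_trans (le_max_left _ _) ht)) h hh hhP hhQ
  omega

lemma hX {n : ℕ} (i : Fin (n + 2)) :
    (MvPolynomial.X i : MvPolynomial (Fin (n + 2)) K) ∈
      MvPolynomial.homogeneousSubmodule (Fin (n + 2)) K 1 := by
  rw [MvPolynomial.mem_homogeneousSubmodule]
  exact MvPolynomial.isHomogeneous_X _ _

lemma hXX {n : ℕ} (i j : Fin (n + 2)) :
    (MvPolynomial.X i * MvPolynomial.X j : MvPolynomial (Fin (n + 2)) K) ∈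
      MvPolynomial.homogeneousSubmodule (Fin (n + 2)) K 2 := by
  rw [MvPolynomial.mem_homogeneousSubmodule]
  exact (MvPolynomial.isHomogeneous_X _ _).mul (MvPolynomial.isHomogeneous_X _ _)

lemma quadrics (hHil : HilStmt) (hCon : ConStmt) (n k : ℕ) (hn : 3 ≤ n) (hk : 3 ≤ k)
    [Module.Finite K E] (s t : E) (P Q : Ideal (MvPolynomial (Fin (n + 2)) K))
    (F : MvPolynomial (Fin (n + 2)) K)
    (hrank : Module.finrank K E = 2 * k)
    (hgen : ∀ e : E, ∃ p : K[X], aeval s p = e)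
    (htwo : ∀ x : E, (∃ c : K, algebraMap K E c = x) ∨ (∀ e : E, ∃ p : K[X], aeval x p = e))
    (hP : IsPt (2 * k) P)
    (hmem : ∀ (u : ℕ), ∀ h ∈ MvPolynomial.homogeneousSubmodule (Fin (n + 2)) K u,
      (h ∈ P ↔ ev s t (res 1 n K h) = 0))
    (hQ : IsCrv k Q) (hQP : Q ≤ P)
    (hF : F ∈ MvPolynomial.homogeneousSubmodule (Fin (n + 2)) K 2) (hFP : F ∈ P) (hFQ : F ∉ Q)
    (hlin : ∀ a₁ a₂ a₃ : K, ev s t (C (C a₁) * Y - C (C a₂) * C X + C (C a₃)) = 0 →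
      a₁ = 0 ∧ a₂ = 0 ∧ a₃ = 0) :
    (∀ i : Fin (n + 2), i.1 = 3 → MvPolynomial.X i ∉ Q) ∧
    (∀ i : Fin (n + 2), 4 + 1 ≤ i.1 → MvPolynomial.X i ∈ Q) ∧
    (∀ i₀ i₁ i₂ i₃ : Fin (n + 2), i₀.1 = 0 → i₁.1 = 1 → i₂.1 = 2 → i₃.1 = 3 →
      MvPolynomial.X i₀ * MvPolynomial.X i₃ - MvPolynomial.X i₁ * MvPolynomial.X i₂ ∈ Q) ∧
    (∀ i₁ i₃ i₄ : Fin (n + 2), i₁.1 = 1 → i₃.1 = 3 → i₄.1 = 4 →
      MvPolynomial.X i₄ * MvPolynomial.X i₃ - MvPolynomial.X i₁ ^ 2 ∈ Q) := by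
  have hQp := hQ.1
  have hlow : ∀ h ∈ MvPolynomial.homogeneousSubmodule (Fin (n + 2)) K 1, h ∈ P → h ∈ Q :=
    fun h hh hhP => low_forms hHil P Q k (2 * k) 1 (by omega) hP hQ hQP h hh hhP
  have h3 : ∀ i : Fin (n + 2), i.1 = 3 → MvPolynomial.X i ∉ Q := by
    intro i hi hiQ
    have h1 := (hmem 1 _ (hX i)).mp (hQP hiQ)
    rw [res_X, hi, th3, ev_one] at h1
    exact one_ne_zero h1
  have h5 : ∀ i : Fin (n + 2), 4 + 1 ≤ i.1 → MvPolynomial.X i ∈ Q := by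
    intro i hi
    apply hlow _ (hX i)
    rw [hmem 1 _ (hX i), res_X, th5 1 _ hi, ev_zero]
  -- the coordinates
  obtain ⟨x0, hx0⟩ : ∃ i : Fin (n + 2), i.1 = 0 := ⟨⟨0, by omega⟩, rfl⟩
  obtain ⟨x1, hx1⟩ : ∃ i : Fin (n + 2), i.1 = 1 := ⟨⟨1, by omega⟩, rfl⟩
  obtain ⟨x2, hx2⟩ : ∃ i : Fin (n + 2), i.1 = 2 := ⟨⟨2, by omega⟩, rfl⟩
  obtain ⟨x3, hx3⟩ : ∃ i : Fin (n + 2), i.1 = 3 := ⟨⟨3, by omega⟩, rfl⟩
  obtain ⟨x4, hx4⟩ : ∃ i : Fin (n + 2), i.1 = 4 := ⟨⟨4, by omega⟩, rfl⟩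
  -- quadrics
  have hcon : ∀ q ∈ MvPolynomial.homogeneousSubmodule (Fin (n + 2)) K 2,
      res 1 n K q = 0 → ∃ a : K, q - MvPolynomial.C a * F ∈ Q := by
    intro q hq hq0
    have hqP : q ∈ P := by rw [hmem 2 q hq, hq0, ev_zero]
    by_cases hqQ : q ∈ Q
    · exact ⟨0, by simpa using hqQ⟩
    · obtain ⟨hPp, hPh, T1, hT1⟩ := hP
      obtain ⟨_, hQh, c, T2, hT2⟩ := hQ
      exact hCon 1 n k (max T1 T2) c K E s t P Q F q le_rfl (by omega) (by omega) hrank hgen htwo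
        hPh (fun u hu => hT1 u (le_trans (le_max_left _ _) hu)) hmem hQp hQh hQP
        (fun u hu => hT2 u (le_trans (le_max_right _ _) hu)) hF hFP hFQ hq hqP hqQ
  have hq1 : (MvPolynomial.X x4 * MvPolynomial.X x3 - MvPolynomial.X x1 * MvPolynomial.X x1 :
      MvPolynomial (Fin (n + 2)) K) ∈ MvPolynomial.homogeneousSubmodule (Fin (n + 2)) K 2 :=
    Submodule.sub_mem _ (hXX _ _) (hXX _ _)
  have hq2 : (MvPolynomial.X x0 * MvPolynomial.X x3 - MvPolynomial.X x1 * MvPolynomial.X x2 :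
      MvPolynomial (Fin (n + 2)) K) ∈ MvPolynomial.homogeneousSubmodule (Fin (n + 2)) K 2 :=
    Submodule.sub_mem _ (hXX _ _) (hXX _ _)
  have hq3 : (MvPolynomial.X x0 * MvPolynomial.X x1 - MvPolynomial.X x2 * MvPolynomial.X x4 :
      MvPolynomial (Fin (n + 2)) K) ∈ MvPolynomial.homogeneousSubmodule (Fin (n + 2)) K 2 :=
    Submodule.sub_mem _ (hXX _ _) (hXX _ _)
  obtain ⟨a1, ha1⟩ := hcon _ hq1 (by
    rw [map_sub, map_mul, map_mul, res_X, res_X, res_X, hx1, hx3, hx4, th1, th3, th4, C_pow]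
    ring)
  obtain ⟨a2, ha2⟩ := hcon _ hq2 (by
    rw [map_sub, map_mul, map_mul, res_X, res_X, res_X, res_X, hx0, hx1, hx2, hx3, th0, th1, th2,
      th3]
    ring)
  obtain ⟨a3, ha3⟩ := hcon _ hq3 (by
    rw [map_sub, map_mul, map_mul, res_X, res_X, res_X, res_X, hx0, hx1, hx2, hx4, th0, th1, th2,
      th4, C_pow]
    ring)
  -- the syzygy
  set ell : MvPolynomial (Fin (n + 2)) K := MvPolynomial.C a1 * MvPolynomial.X x2
    - MvPolynomial.C a2 * MvPolynomial.X x1 + MvPolynomial.C a3 * MvPolynomial.X x3 with hell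
  have hellF : ell * F ∈ Q := by
    have e1 : ell * F = -(MvPolynomial.X x2 * (MvPolynomial.X x4 * MvPolynomial.X x3
          - MvPolynomial.X x1 * MvPolynomial.X x1 - MvPolynomial.C a1 * F))
        + (MvPolynomial.X x1 * (MvPolynomial.X x0 * MvPolynomial.X x3
          - MvPolynomial.X x1 * MvPolynomial.X x2 - MvPolynomial.C a2 * F))
        - (MvPolynomial.X x3 * (MvPolynomial.X x0 * MvPolynomial.X x1
          - MvPolynomial.X x2 * MvPolynomial.X x4 - MvPolynomial.C a3 * F)) := by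
      rw [hell]; ring
    rw [e1]
    exact Ideal.sub_mem _ (Ideal.add_mem _ (neg_mem (Ideal.mul_mem_left _ _ ha1))
      (Ideal.mul_mem_left _ _ ha2)) (Ideal.mul_mem_left _ _ ha3)
  have hellQ : ell ∈ Q := by
    rcases hQp.mem_or_mem hellF with h | h
    · exact h
    · exact absurd h hFQ
  have hCX : ∀ (a : K) (i : Fin (n + 2)), (MvPolynomial.C a * MvPolynomial.X i :
      MvPolynomial (Fin (n + 2)) K) ∈ MvPolynomial.homogeneousSubmodule (Fin (n + 2)) K 1 := by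
    intro a i
    rw [← MvPolynomial.smul_eq_C_mul]
    exact Submodule.smul_mem _ _ (hX i)
  have hellh : ell ∈ MvPolynomial.homogeneousSubmodule (Fin (n + 2)) K 1 :=
    Submodule.add_mem _ (Submodule.sub_mem _ (hCX _ _) (hCX _ _)) (hCX _ _)
  have hev := (hmem 1 ell hellh).mp (hQP hellQ)
  have hres : res 1 n K ell = C (C a1) * Y - C (C a2) * C X + C (C a3) := by
    rw [hell, map_add, map_sub, map_mul, map_mul, map_mul, res_C, res_C, res_C, res_X, res_X,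
      res_X, hx1, hx2, hx3, th1, th2, th3, mul_one]
  rw [hres] at hev
  obtain ⟨h1, h2, h4⟩ := hlin a1 a2 a3 hev
  refine ⟨h3, h5, ?_, ?_⟩
  · intro i₀ i₁ i₂ i₃ h0 h1' h2' h3'
    have e0 : i₀ = x0 := Fin.ext (by omega)
    have e1 : i₁ = x1 := Fin.ext (by omega)
    have e2 : i₂ = x2 := Fin.ext (by omega)
    have e3 : i₃ = x3 := Fin.ext (by omega)
    rw [e0, e1, e2, e3]
    simpa [h2] using ha2
  · intro i₁ i₃ i₄ h1' h3' h4'
    have e1 : i₁ = x1 := Fin.ext (by omega)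
    have e3 : i₃ = x3 := Fin.ext (by omega)
    have e4 : i₄ = x4 := Fin.ext (by omega)
    rw [e1, e3, e4, pow_two]
    simpa [h1] using ha1

end Pool.Agent.LDP.H38
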