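import Pool.Agent.Helper38_LDP.SpeA

namespace Pool.Agent.LDP.H38

open Polynomial
open scoped Polynomial.Bivariate

variable {L : Type} [Field L]

/-! ### the ideal `I = (f, π)` -/

section quo

variable {S : Type} [CommRing S] (q : L[X][Y] →+* S)

lemma rel1 (ρ d m : ℕ) (lam : L) (hd : 2 ≤ d) (hf : q (fs ρ d lam) = 0) (hp : q (pip d m) = 0) :
    q (C (X ^ (m + d))) * q Y = - q (C (X ^ ((1 + ρ) * d) + X - C lam)) := by
  rw [← map_mul, ← map_neg, ← sub_eq_zero, ← map_sub]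
  have e : C (X ^ (m + d)) * Y - -C (X ^ ((1 + ρ) * d) + X - C lam) =
      fs ρ d lam + Y * pip d m := by
    rw [fs_eq ρ d lam hd]
    unfold pip
    ring
  rw [e, map_add, map_mul, hf, hp, mul_zero, add_zero]

lemma rel2 (d m : ℕ) (hp : q (pip d m) = 0) :
    q (C (X ^ (m + d))) = q Y ^ (d - 2) + q (C (X ^ d)) * q Y ^ (d - 1) := by
  rw [← map_pow, ← map_pow, ← map_mul, ← map_add, ← sub_eq_zero, ← map_sub]
  have e : C (X ^ (m + d)) - (Y ^ (d - 2) + C (X ^ d) * Y ^ (d - 1)) = (pip d m : L[X][Y]) := by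
    unfold pip; ring
  rw [e, hp]

lemma unitX (ρ d m : ℕ) (lam : L) (hP : Par ρ d m) (hl : lam ≠ 0)
    (hf : q (fs ρ d lam) = 0) (hp : q (pip d m) = 0) : IsUnit (q (C X)) := by
  obtain ⟨hd, hm, hρ⟩ := par_two hP
  have h1 := rel1 q ρ d m lam hd hf hp
  have e1 : (1 + ρ) * d = ((1 + ρ) * d - 1) + 1 := by
    have : 1 ≤ (1 + ρ) * d := by nlinarith
    omega
  have e2 : m + d = (m + d - 1) + 1 := by omega
  have h2 : q (C X) * (q (C X ^ ((1 + ρ) * d - 1) + 1 + C X ^ (m + d - 1) * Y)) =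
      q (C (C lam)) := by
    have h3 : q (C (X ^ (m + d)) * Y +
        C (X ^ ((1 + ρ) * d) + X - C lam)) = 0 := by
      rw [map_add, map_mul, h1, neg_add_cancel]
    have e3 : C (X ^ (m + d)) * Y + C (X ^ ((1 + ρ) * d) + X - C lam) =
        C X * (C X ^ ((1 + ρ) * d - 1) + 1 + C X ^ (m + d - 1) * Y) - C (C lam) := by
      have q1 : (C (X ^ (m + d)) : L[X][Y]) = C X * C X ^ (m + d - 1) := by
        rw [← pow_succ', ← e2, ← C_pow]
      have q2 : (C (X ^ ((1 + ρ) * d)) : L[X][Y]) = C X * C X ^ ((1 + ρ) * d - 1) := by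
        rw [← pow_succ', ← e1, ← C_pow]
      rw [C_sub, C_add, q1, q2]
      ring
    rw [e3, map_sub, sub_eq_zero, map_mul] at h3
    exact h3
  have h4 : IsUnit (q (C (C lam))) := by
    apply IsUnit.map
    apply IsUnit.map
    apply IsUnit.map
    exact isUnit_iff_ne_zero.mpr hl
  rw [← h2] at h4
  exact isUnit_of_mul_isUnit_left h4

lemma RR_zero (ρ d m : ℕ) (lam : L) (hP : Par ρ d m) (hl : lam ≠ 0)
    (hf : q (fs ρ d lam) = 0) (hp : q (pip d m) = 0) :
    q (C (RR m d (fs ρ d lam))) = 0 := by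
  obtain ⟨hd, hm, hρ⟩ := par_two hP
  have hu := unitX q ρ d m lam hP hl hf hp
  have hud : IsUnit (q (C (X ^ d))) := by
    rw [C_pow, map_pow]; exact hu.pow d
  rw [← hud.mul_right_eq_zero, ← map_mul, ← C_mul, fs_RR ρ d m lam hd]
  have e1 : X ^ d * (X ^ m * (X ^ (m + d)) ^ (d - 1)
      - (-(X ^ ((1 + ρ) * d) + X - C lam)) ^ (d - 2) * X ^ m
      - (-(X ^ ((1 + ρ) * d) + X - C lam)) ^ (d - 1)) =
      (X ^ (m + d)) * (X ^ (m + d)) ^ (d - 1)
        - (-(X ^ ((1 + ρ) * d) + X - C lam)) ^ (d - 2) * X ^ (m + d)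
        - X ^ d * (-(X ^ ((1 + ρ) * d) + X - C lam)) ^ (d - 1) := by
    rw [pow_add X m d]; ring
  rw [e1]
  have r1 := rel1 q ρ d m lam hd hf hp
  have r2 := rel2 q d m hp
  simp only [C_sub, C_mul, C_neg, C_pow, map_sub, map_mul, map_pow, map_neg, C_add, map_add]
    at r1 r2 ⊢
  rw [← r1]
  set w := q (C X) ^ (m + d) with hw
  set y := q Y with hy
  have e2 : w ^ (d - 1) = w ^ (d - 2) * w := by rw [← pow_succ]; congr 1; omega
  have e3 : w * w ^ (d - 1) - (w * y) ^ (d - 2) * w - q (C X) ^ d * (w * y) ^ (d - 1) =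
      w ^ (d - 1) * (w - (y ^ (d - 2) + q (C X) ^ d * y ^ (d - 1))) := by
    rw [mul_pow, mul_pow, e2]; ring
  rw [e3, ← r2, sub_self, mul_zero]

lemma num_mem (ρ d m b : ℕ) (lam : L) (hP : Par ρ d m) (hl : lam ≠ 0)
    (hf : q (fs ρ d lam) = 0) (hp : q (pip d m) = 0) (G : L[X][Y])
    (hb : G.natDegree ≤ b) (hR : RR m d (fs ρ d lam) ∣ num m d b (fs ρ d lam) G) :
    q G = 0 := by
  obtain ⟨hd, hm, hρ⟩ := par_two hP
  have hu := unitX q ρ d m lam hP hl hf hp
  have huw : IsUnit (q (C (X ^ (m + d))) ^ b) := by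
    rw [C_pow, map_pow]; exact (hu.pow _).pow _
  rw [← huw.mul_right_eq_zero]
  obtain ⟨r, hr⟩ := hR
  have h0 : q (C (num m d b (fs ρ d lam) G)) = 0 := by
    rw [hr, C_mul, map_mul, RR_zero q ρ d m lam hP hl hf hp, zero_mul]
  rw [← h0]
  conv_lhs => rw [G.as_sum_range' (b + 1) (by omega)]
  unfold num
  rw [map_sum, map_sum, map_sum, Finset.mul_sum]
  apply Finset.sum_congr rfl
  intro j hj
  rw [Finset.mem_range] at hj
  have k1 : q (C ((-(X ^ ((1 + ρ) * d) + X - C lam)) ^ j)) =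
      (q (C (X ^ (m + d))) * q Y) ^ j := by
    rw [rel1 q ρ d m lam hd hf hp, ← map_neg, ← map_pow, ← C_neg, ← C_pow]
  have k2 : q (C ((X ^ (m + d)) ^ (b - j))) = q (C (X ^ (m + d))) ^ (b - j) := by
    rw [← map_pow, ← C_pow]
  have e0 : q (C (G.coeff j) * Y ^ j) = q (C (G.coeff j)) * (q Y) ^ j := by
    rw [map_mul, map_pow]
  rw [fs_wP ρ d m lam hd, fs_coeff_zero ρ d lam hd, ← C_mul_X_pow_eq_monomial, e0,
    C_mul, C_mul, map_mul, map_mul, k1, k2]
  generalize q (C (X ^ (m + d))) = w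
  obtain ⟨c, rfl⟩ : ∃ c, b = j + c := ⟨b - j, by omega⟩
  rw [Nat.add_sub_cancel_left, pow_add, mul_pow]
  ring

end quo

/-! ### dimension of `B / I` -/

lemma RR_eval_zero (ρ d m : ℕ) (lam : L) (hP : Par ρ d m) :
    (RR m d (fs ρ d lam)).eval 0 = - lam ^ (d - 1) := by
  obtain ⟨hd, hm, hρ⟩ := par_two hP
  rw [fs_RR ρ d m lam hd]
  have h1 : (1 + ρ) * d ≠ 0 := by nlinarith
  simp [h1, zero_pow (by omega : m ≠ 0)]

lemma exists_surj (hMon : MonStmt) (ρ d m : ℕ) (lam : L) (hP : Par ρ d m) (hl : lam ≠ 0)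
    (J : Ideal L[X][Y]) (hJ : J ≤ Ideal.span {fs ρ d lam, pip d m}) :
    ∃ (E : Type) (_ : CommRing E) (_ : Algebra L E) (g : (L[X][Y] ⧸ J) →ₗ[L] E),
      Function.Surjective g ∧ Module.finrank L E = d * (m + d - 1) ∧ Module.Finite L E ∧
      g (Ideal.Quotient.mk J (pip d m)) = 0 := by
  obtain ⟨hd, hm, hρ⟩ := par_two hP
  obtain ⟨hmonic, hdeg⟩ := hMon ρ d m L (fs ρ d lam) hP (fs_good ρ d m lam hP)
  set R := RR m d (fs ρ d lam) with hR
  have hunit : IsUnit (AdjoinRoot.mk R X) := by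
    have h1 : X ∣ R - C (R.eval 0) := by
      rw [X_dvd_iff]
      simp [coeff_zero_eq_eval_zero]
    obtain ⟨r, hr⟩ := h1
    have h2 : AdjoinRoot.mk R X * AdjoinRoot.mk R r = AdjoinRoot.mk R (C (lam ^ (d - 1))) := by
      rw [← map_mul, ← hr, map_sub, AdjoinRoot.mk_self, zero_sub, ← map_neg, ← C_neg,
        RR_eval_zero ρ d m lam hP, neg_neg]
    have h3 : IsUnit (AdjoinRoot.mk R (C (lam ^ (d - 1)))) := by
      apply IsUnit.map
      apply IsUnit.map
      exact (isUnit_iff_ne_zero.mpr hl).pow _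
    rw [← h2] at h3
    exact isUnit_of_mul_isUnit_left h3
  have hw : IsUnit (AdjoinRoot.mk R (X ^ (m + d))) := by
    rw [map_pow]; exact hunit.pow _
  obtain ⟨wi, hwi⟩ := hw.exists_right_inv
  set t0 : AdjoinRoot R := - AdjoinRoot.mk R (X ^ ((1 + ρ) * d) + X - C lam) * wi with ht0
  have hwt : AdjoinRoot.mk R (X ^ (m + d)) * t0 =
      - AdjoinRoot.mk R (X ^ ((1 + ρ) * d) + X - C lam) := by
    rw [ht0, mul_comm (-_) wi, ← mul_assoc, hwi, one_mul]
  let θ : L[X][Y] →+* AdjoinRoot R := eval₂RingHom (AdjoinRoot.mk R) t0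
  have hθC : ∀ p : L[X], θ (C p) = AdjoinRoot.mk R p := by
    intro p; simp [θ]
  have hθY : θ Y = t0 := by simp [θ]
  -- F₁ = w
  have hF1 : t0 ^ (d - 2) + AdjoinRoot.mk R (X ^ d) * t0 ^ (d - 1) =
      AdjoinRoot.mk R (X ^ (m + d)) := by
    have hwd := hw.pow (d - 1)
    rw [← hwd.mul_right_inj]
    have e2 : (AdjoinRoot.mk R (X ^ (m + d))) ^ (d - 1) =
        (AdjoinRoot.mk R (X ^ (m + d))) ^ (d - 2) * AdjoinRoot.mk R (X ^ (m + d)) := by
      rw [← pow_succ]; congr 1; omega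
    have e3 : (AdjoinRoot.mk R (X ^ (m + d))) ^ (d - 1) *
        (t0 ^ (d - 2) + AdjoinRoot.mk R (X ^ d) * t0 ^ (d - 1)) =
        (AdjoinRoot.mk R (X ^ (m + d)) * t0) ^ (d - 2) * AdjoinRoot.mk R (X ^ (m + d)) +
        AdjoinRoot.mk R (X ^ d) * (AdjoinRoot.mk R (X ^ (m + d)) * t0) ^ (d - 1) := by
      rw [mul_pow, mul_pow, mul_add]
      nth_rewrite 1 [e2]
      ring
    rw [e3, hwt]
    have h0 : AdjoinRoot.mk R (X ^ d * R) = 0 := by
      rw [map_mul, AdjoinRoot.mk_self, mul_zero]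
    have e4 : X ^ d * R = (X ^ (m + d)) * (X ^ (m + d)) ^ (d - 1)
        - (-(X ^ ((1 + ρ) * d) + X - C lam)) ^ (d - 2) * X ^ (m + d)
        - X ^ d * (-(X ^ ((1 + ρ) * d) + X - C lam)) ^ (d - 1) := by
      rw [hR, fs_RR ρ d m lam hd, pow_add X m d]; ring
    rw [e4, map_sub, map_sub, map_mul (AdjoinRoot.mk R) (X ^ (m + d)) _,
      map_mul (AdjoinRoot.mk R) _ (X ^ (m + d)), map_mul (AdjoinRoot.mk R) (X ^ d) _,
      map_pow (AdjoinRoot.mk R) (X ^ (m + d)) (d - 1),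
      map_pow (AdjoinRoot.mk R) _ (d - 2),
      map_pow (AdjoinRoot.mk R) (-(X ^ ((1 + ρ) * d) + X - C lam)) (d - 1), map_neg] at h0
    linear_combination -h0
  have hθp : θ (pip d m) = 0 := by
    unfold pip
    rw [map_sub, map_sub, map_mul, map_pow θ Y _, map_pow θ Y _, hθC, hθC, hθY, ← hF1]
    ring
  have hθf : θ (fs ρ d lam) = 0 := by
    rw [fs_eq ρ d lam hd, map_add, map_mul, map_add θ (Y ^ (d - 2)) _, map_mul, map_pow θ Y _,
      map_pow θ Y _, hθC, hθC, hθY, hF1, mul_comm t0, hwt]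
    ring
  have hker : ∀ g ∈ J, θ g = 0 := by
    intro g hg
    have h1 := hJ hg
    have h2 : Ideal.span {fs ρ d lam, pip d m} ≤ RingHom.ker θ := by
      rw [Ideal.span_le]
      intro x hx
      rcases hx with rfl | hx
      · exact hθf
      · rw [Set.mem_singleton_iff] at hx
        rw [hx]; exact hθp
    exact h2 h1
  let θa : L[X][Y] →ₐ[L] AdjoinRoot R :=
    { θ with
      commutes' := by
        intro c
        have : algebraMap L L[X][Y] c = C (C c) := rfl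
        rw [this]
        change θ (C (C c)) = _
        rw [hθC]
        rfl }
  have hθa : ∀ g, θa g = θ g := fun g => rfl
  let G := Ideal.Quotient.liftₐ J θa hker
  refine ⟨AdjoinRoot R, inferInstance, inferInstance, G.toLinearMap, ?_, ?_, ?_, ?_⟩
  · intro e
    obtain ⟨p, rfl⟩ := AdjoinRoot.mk_surjective e
    refine ⟨Ideal.Quotient.mk J (C p), ?_⟩
    change G (Ideal.Quotient.mk J (C p)) = _
    rw [Ideal.Quotient.liftₐ_apply, Ideal.Quotient.lift_mk]
    change θ (C p) = _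
    exact hθC p
  · rw [← hdeg]
    exact (AdjoinRoot.powerBasis' hmonic).finrank
  · exact (AdjoinRoot.powerBasis' hmonic).finite
  · change G (Ideal.Quotient.mk J (pip d m)) = _
    rw [Ideal.Quotient.liftₐ_apply, Ideal.Quotient.lift_mk]
    exact hθp

lemma fs_ne (ρ d : ℕ) (lam : L) (hd : 2 ≤ d) : fs ρ d lam ≠ 0 := by
  intro h0
  have hfd := fs_natDegree ρ d lam hd
  rw [h0] at hfd
  simp at hfd
  omega

lemma not_dvd_pip (ρ d m : ℕ) (lam : L) (hd : 2 ≤ d) : ¬ fs ρ d lam ∣ pip d m := by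
  intro h
  have h1 := Polynomial.natDegree_le_of_dvd h (pip_ne d m hd)
  have h2 := fs_natDegree ρ d lam hd
  have h3 := pip_natDegree (L := L) d m hd
  omega

lemma natDegree_le_of_V (ρ a b : ℕ) (G : L[X][Y]) (hG : G ∈ V ρ L a b) : G.natDegree ≤ b := by
  rw [natDegree_le_iff_coeff_eq_zero]
  intro N hN
  ext i
  by_contra hne
  rw [coeff_zero] at hne
  have := (hG i N hne).1
  omega

lemma pip_mem (hBez : BezStmt) (hMon : MonStmt) (ρ d m a b : ℕ) (lam : L) (hP : Par ρ d m)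
    (hl : lam ≠ 0) (hirr : Irreducible (fs ρ d lam)) (G : L[X][Y]) (hab : a + b ≤ m + d - 1)
    (hG : G ∈ V ρ L a b) (hnd : ¬ fs ρ d lam ∣ G)
    (hmem : G ∈ Ideal.span {fs ρ d lam, pip d m}) :
    pip d m ∈ Ideal.span {fs ρ d lam, G} := by
  obtain ⟨hd, hm, hρ⟩ := par_two hP
  obtain ⟨b', hb', hρb, hG'⟩ : ∃ b', b' ≤ b ∧ ρ * b' ≤ a ∧ G ∈ V ρ L a b' := by
    rcases Nat.eq_zero_or_pos ρ with h0 | h0
    · subst h0; exact ⟨b, le_refl _, by simp, hG⟩
    · have h1 : ρ = 1 := by omega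
      subst h1
      refine ⟨min b a, min_le_left _ _, by simp, ?_⟩
      intro i j hij
      have := hG i j hij
      exact ⟨le_min this.1 (by omega), this.2⟩
  have hρd : ρ * d ≤ (1 + ρ) * d := Nat.mul_le_mul_right _ (by omega)
  obtain ⟨hfin, hle⟩ := hBez ρ ((1 + ρ) * d) d a b' L (fs ρ d lam) G hρ hρd hρb
    (fs_good ρ d m lam hP).mem hG' hirr hnd
  have hle2 : Module.finrank L (L[X][Y] ⧸ Ideal.span {fs ρ d lam, G}) ≤ d * (m + d - 1) := by
    have h1 : (1 + ρ) * d * b' + a * d = d * (a + b') + ρ * d * b' := by ring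
    have h2 : d * (a + b') ≤ d * (m + d - 1) := Nat.mul_le_mul_left _ (by omega)
    omega
  have hJ : Ideal.span {fs ρ d lam, G} ≤ Ideal.span {fs ρ d lam, pip d m} := by
    rw [Ideal.span_le]
    intro x hx
    rcases hx with rfl | hx
    · exact Ideal.subset_span (Set.mem_insert _ _)
    · rw [Set.mem_singleton_iff] at hx
      rw [hx]; exact hmem
  obtain ⟨E, _, _, g, hg, hrank, hfE, hgp⟩ := exists_surj hMon ρ d m lam hP hl _ hJ
  have hge := LinearMap.finrank_le_finrank_of_surjective hg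
  have heq : Module.finrank L (L[X][Y] ⧸ Ideal.span {fs ρ d lam, G}) = Module.finrank L E := by
    omega
  have hinj : Function.Injective g :=
    (LinearMap.injective_iff_surjective_of_finrank_eq_finrank heq).mpr hg
  have h0 : Ideal.Quotient.mk (Ideal.span {fs ρ d lam, G}) (pip d m) = 0 := by
    apply hinj
    rw [hgp, map_zero]
  exact Ideal.Quotient.eq_zero_iff_mem.mp h0

lemma mem_of_num (ρ d m b : ℕ) (lam : L) (hP : Par ρ d m) (hl : lam ≠ 0) (G : L[X][Y])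
    (hb : G.natDegree ≤ b) (hR : RR m d (fs ρ d lam) ∣ num m d b (fs ρ d lam) G) :
    G ∈ Ideal.span {fs ρ d lam, pip d m} := by
  set I : Ideal L[X][Y] := Ideal.span {fs ρ d lam, pip d m} with hI
  have h := num_mem (S := L[X][Y] ⧸ I) (algebraMap L[X][Y] (L[X][Y] ⧸ I)) ρ d m b lam hP hl
    (Ideal.Quotient.eq_zero_iff_mem.mpr (Ideal.subset_span (Set.mem_insert _ _)))
    (Ideal.Quotient.eq_zero_iff_mem.mpr
        (Ideal.subset_span (Set.mem_insert_of_mem _ (Set.mem_singleton _)))) G hb hR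
  exact Ideal.Quotient.eq_zero_iff_mem.mp h

lemma fs_sub (ρ d : ℕ) (c : L) : fs ρ d (0 : L) - C (C c) = fs ρ d c := by
  unfold fs
  simp only [C_sub, C_add, C_0]
  ring

lemma fs_bmap {A B : Type} [CommRing A] [CommRing B] (φ : A →+* B) (ρ d : ℕ) (c : A) :
    bmap φ (fs ρ d c) = fs ρ d (φ c) := by
  unfold fs bmap
  simp

theorem spe (hBez : BezStmt) (hUni : UniStmt) (hIrr : IrrStmt) (hMon : MonStmt) : SpeStmt := by
  intro ρ d m hP a b G hab hG hR
  obtain ⟨hd, hm, hρ⟩ := par_two hP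
  set L := FractionRing ℂ[X] with hL
  set lam : L := algebraMap ℂ[X] L X with hlam
  have hl : lam ≠ 0 := by
    rw [hlam, Ne, FaithfulSMul.algebraMap_eq_zero_iff]
    exact X_ne_zero
  have hrd : (ρ = 0 ∧ 3 ≤ d) ∨ (ρ = 1 ∧ d = 2) := by
    rcases hP with ⟨h1, h2, _⟩ | ⟨h1, h2, _⟩
    · exact Or.inl ⟨h1, h2⟩
    · exact Or.inr ⟨h1, h2⟩
  have : CharZero L := by
    exact charZero_of_injective_algebraMap (algebraMap ℂ L).injective
  have hirr := hIrr ρ d L lam hrd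
  by_contra hnd
  have hmem : G ∈ Ideal.span {fs ρ d lam, pip d m} :=
    mem_of_num ρ d m b lam hP hl G (natDegree_le_of_V ρ a b G hG) hR
  have hpi := pip_mem hBez hMon ρ d m a b lam hP hl hirr G hab hG hnd hmem
  obtain ⟨α, e, hαe⟩ := Ideal.mem_span_pair.mp hmem
  obtain ⟨β, e', hβe⟩ := Ideal.mem_span_pair.mp hpi
  have hdiv : fs ρ d lam ∣ pip d m * (e * e' - 1) := by
    refine ⟨-(β + e' * α), ?_⟩
    have h1 : pip d m = β * fs ρ d lam + e' * (α * fs ρ d lam + e * pip d m) := by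
      rw [hαe, hβe]
    linear_combination -h1
  have hprime : Prime (fs ρ d lam) := hirr.prime
  rcases hprime.dvd_or_dvd hdiv with h | h
  · exact not_dvd_pip ρ d m lam hd h
  · have hN : ∀ c : ℂ, Irreducible (fs ρ d (0 : ℂ) - C (C c)) := by
      intro c
      rw [fs_sub]
      exact hIrr ρ d ℂ c hrd
    have hbm : bmap (algebraMap ℂ L) (fs ρ d (0 : ℂ)) - C (C lam) = fs ρ d lam := by
      rw [fs_bmap, map_zero, fs_sub]
    obtain ⟨c, hc0, hc⟩ := hUni (fs ρ d (0 : ℂ)) hN e e' (by rw [hbm]; exact h)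
    rw [hbm] at hc
    obtain ⟨h', hh'⟩ := hc
    refine top_contra ρ d m a b lam c hP G (α + h' * pip d m) hc0 hab hG ?_
    rw [← hαe]
    linear_combination (pip d m) * hh'

end Pool.Agent.LDP.H38
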