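import Pool.Agent.Helper38_LDP.Stmts

namespace Pool.Agent.LDP.H38

open Polynomial
open scoped Polynomial.Bivariate

variable {L : Type} [Field L]

/-! ### the special polynomial -/

lemma par_two {ρ d m : ℕ} (h : Par ρ d m) : 2 ≤ d ∧ 1 ≤ m ∧ ρ ≤ 1 := by
  rcases h with ⟨h1, h2, h3⟩ | ⟨h1, h2, h3⟩ <;> omega

lemma fs_coeff (ρ d : ℕ) (lam : L) (j : ℕ) :
    (fs ρ d lam).coeff j = (if j = 0 then X ^ ((1 + ρ) * d) + X - C lam else 0)
      + (if j = d - 1 then 1 else 0) + (if j = d then X ^ d else 0) := by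
  unfold fs
  rw [coeff_add, coeff_add, coeff_C, coeff_C_mul, coeff_X_pow, coeff_X_pow]
  congr 1
  by_cases h : j = d
  · rw [if_pos h, if_pos h, mul_one]
  · rw [if_neg h, if_neg h, mul_zero]

lemma fs_coeff_zero (ρ d : ℕ) (lam : L) (hd : 2 ≤ d) :
    (fs ρ d lam).coeff 0 = X ^ ((1 + ρ) * d) + X - C lam := by
  rw [fs_coeff ρ d lam]
  have h1 : (0 : ℕ) ≠ d - 1 := by omega
  have h2 : (0 : ℕ) ≠ d := by omega
  simp [h1, h2]

lemma fs_coeff_d (ρ d : ℕ) (lam : L) (hd : 2 ≤ d) :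
    (fs ρ d lam).coeff d = X ^ d := by
  rw [fs_coeff ρ d lam]
  have h1 : d ≠ d - 1 := by omega
  have h2 : d ≠ 0 := by omega
  simp [h1, h2]

lemma fs_coeff_d1 (ρ d : ℕ) (lam : L) (hd : 2 ≤ d) :
    (fs ρ d lam).coeff (d - 1) = 1 := by
  rw [fs_coeff ρ d lam]
  have h1 : d - 1 ≠ d := by omega
  have h2 : d - 1 ≠ 0 := by omega
  simp [h1, h2]

lemma fs_coeff_other (ρ d : ℕ) (lam : L) (hd : 2 ≤ d) (j : ℕ) (h0 : j ≠ 0) (h1 : j ≠ d - 1)
    (h2 : j ≠ d) : (fs ρ d lam).coeff j = 0 := by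
  rw [fs_coeff ρ d lam]
  simp [h0, h1, h2]

lemma fs_natDegree_le (ρ d : ℕ) (lam : L) (hd : 2 ≤ d) : (fs ρ d lam).natDegree ≤ d := by
  rw [natDegree_le_iff_coeff_eq_zero]
  intro N hN
  exact fs_coeff_other ρ d lam hd N (by omega) (by omega) (by omega)

lemma fs_natDegree (ρ d : ℕ) (lam : L) (hd : 2 ≤ d) : (fs ρ d lam).natDegree = d := by
  apply le_antisymm (fs_natDegree_le ρ d lam hd)
  apply le_natDegree_of_ne_zero
  rw [fs_coeff_d ρ d lam hd]
  exact pow_ne_zero _ X_ne_zero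

lemma fs_good (ρ d m : ℕ) (lam : L) (hP : Par ρ d m) : Good ρ d (fs ρ d lam) := by
  obtain ⟨hd, hm, hρ⟩ := par_two hP
  refine ⟨?_, ?_⟩
  · intro i j hij
    by_cases h0 : j = 0
    · subst h0
      rw [fs_coeff_zero ρ d lam hd] at hij
      refine ⟨Nat.zero_le _, ?_⟩
      have h2 : (X ^ ((1 + ρ) * d) + X - C lam : L[X]).natDegree ≤ (1 + ρ) * d := by
        have h3 : 1 ≤ (1 + ρ) * d := by nlinarith
        compute_degree
        omega
      have := le_natDegree_of_ne_zero hij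
      omega
    · by_cases h1 : j = d - 1
      · subst h1
        rw [fs_coeff_d1 ρ d lam hd, coeff_one] at hij
        have hi : i = 0 := by
          by_contra h
          simp [h] at hij
        subst hi
        refine ⟨by omega, ?_⟩
        have : ρ * (d - 1) ≤ ρ * d := Nat.mul_le_mul_left _ (by omega)
        nlinarith
      · by_cases h2 : j = d
        · subst h2
          rw [fs_coeff_d ρ _ lam hd, coeff_X_pow] at hij
          have hi : i = j := by
            by_contra h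
            simp [h] at hij
          subst hi
          exact ⟨le_refl _, by nlinarith⟩
        · exact absurd (by rw [fs_coeff_other ρ d lam hd j h0 h1 h2]; simp) hij
  · rw [fs_coeff_d ρ d lam hd]; simp

lemma fs_wP (ρ d m : ℕ) (lam : L) (hd : 2 ≤ d) : wP m d (fs ρ d lam) = X ^ (m + d) := by
  unfold wP
  rw [fs_coeff_d ρ d lam hd, pow_add]

lemma fs_RR (ρ d m : ℕ) (lam : L) (hd : 2 ≤ d) :
    RR m d (fs ρ d lam) = X ^ m * (X ^ (m + d)) ^ (d - 1)
      - (-(X ^ ((1 + ρ) * d) + X - C lam)) ^ (d - 2) * X ^ m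
      - (-(X ^ ((1 + ρ) * d) + X - C lam)) ^ (d - 1) := by
  unfold RR
  rw [fs_wP ρ d m lam hd, fs_coeff_zero ρ d lam hd]
  congr 2
  rw [Finset.sum_eq_single (d - 1)]
  · rw [fs_coeff_d1 ρ d lam hd]
    have : d - 1 - (d - 1) = 0 := by omega
    have h2 : d - 1 - 1 = d - 2 := by omega
    rw [this, h2]
    ring
  · intro j hj hj1
    rw [Finset.mem_Ico] at hj
    rw [fs_coeff_other ρ d lam hd j (by omega) hj1 (by omega)]
    ring
  · intro h
    exfalso
    apply h
    rw [Finset.mem_Ico]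
    omega

/-- the polynomial `π` -/
noncomputable def pip (d m : ℕ) : L[X][Y] :=
  C (X ^ (m + d)) - Y ^ (d - 2) - C (X ^ d) * Y ^ (d - 1)

lemma fs_eq (ρ d : ℕ) (lam : L) (hd : 2 ≤ d) :
    fs ρ d lam = C (X ^ ((1 + ρ) * d) + X - C lam) + Y * (Y ^ (d - 2) + C (X ^ d) * Y ^ (d - 1)) := by
  unfold fs
  have h1 : Y ^ (d - 1) = Y * (Y ^ (d - 2) : L[X][Y]) := by
    rw [← pow_succ']; congr 1; omega
  have h2 : Y ^ d = Y * (Y ^ (d - 1) : L[X][Y]) := by
    rw [← pow_succ']; congr 1; omega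
  rw [h1, h2]
  rw [h1]
  ring

lemma pip_coeff_d1 (d m : ℕ) (hd : 2 ≤ d) :
    (pip d m : L[X][Y]).coeff (d - 1) = - X ^ d := by
  unfold pip
  rw [coeff_sub, coeff_sub, coeff_C, coeff_C_mul, coeff_X_pow, coeff_X_pow]
  have h1 : d - 1 ≠ 0 := by omega
  have h2 : d - 1 ≠ d - 2 := by omega
  simp [h1, h2]

lemma pip_ne (d m : ℕ) (hd : 2 ≤ d) : (pip d m : L[X][Y]) ≠ 0 := by
  intro h
  have := pip_coeff_d1 (L := L) d m hd
  rw [h] at this
  simp only [coeff_zero] at this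
  have h3 : (X ^ d : L[X]) ≠ 0 := pow_ne_zero _ X_ne_zero
  apply h3
  have h4 := neg_eq_zero.mp this.symm
  exact h4

lemma pip_natDegree (d m : ℕ) (hd : 2 ≤ d) : (pip d m : L[X][Y]).natDegree ≤ d - 1 := by
  unfold pip
  have h1 : (C (X ^ (m + d)) : L[X][Y]).natDegree ≤ d - 1 := by simp
  have h2 : (Y ^ (d - 2) : L[X][Y]).natDegree ≤ d - 1 := by
    rw [natDegree_X_pow]; omega
  have h3 : (C (X ^ d) * Y ^ (d - 1) : L[X][Y]).natDegree ≤ d - 1 :=
    (natDegree_C_mul_le _ _).trans (natDegree_X_pow_le _)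
  exact (natDegree_sub_le_of_le (natDegree_sub_le_of_le h1 h2) h3).trans (by simp)

/-! ### the weight homomorphism -/

/-- `X ↦ X Z` on `L[X]` -/
noncomputable def g1 : L[X] →+* Polynomial (L[X][Y]) :=
  eval₂RingHom ((C : L[X][Y] →+* Polynomial (L[X][Y])).comp
    ((C : L[X] →+* L[X][Y]).comp (C : L →+* L[X])))
    (C (C (X : L[X])) * (X : Polynomial (L[X][Y])))

/-- `X ↦ X Z`, `Y ↦ Y Z^ρ` -/
noncomputable def Gam (ρ : ℕ) : L[X][Y] →+* Polynomial (L[X][Y]) :=
  eval₂RingHom g1 (C (Y : L[X][Y]) * (X : Polynomial (L[X][Y])) ^ ρ)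

lemma g1_C (c : L) : g1 (C c : L[X]) = C (C (C c)) := by
  unfold g1; simp

lemma g1_X : g1 (X : L[X]) = C (C (X : L[X])) * (X : Polynomial (L[X][Y])) := by
  unfold g1; simp

lemma Gam_C (ρ : ℕ) (p : L[X]) : Gam ρ (C p) = g1 p := by
  unfold Gam; simp

lemma Gam_Y (ρ : ℕ) : Gam ρ (Y : L[X][Y]) = C (Y : L[X][Y]) * (X : Polynomial (L[X][Y])) ^ ρ := by
  unfold Gam; simp

lemma Gam_mono (ρ i j : ℕ) (c : L) :
    Gam ρ (C (C c * X ^ i) * Y ^ j) =
      C (C (C c * X ^ i) * Y ^ j) * (X : Polynomial (L[X][Y])) ^ (i + ρ * j) := by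
  rw [map_mul, map_pow, Gam_C, Gam_Y, map_mul, map_pow, g1_C, g1_X]
  simp only [map_mul, map_pow, mul_pow, pow_add, pow_mul]
  ring

lemma mono_expand (G : L[X][Y]) : G = ∑ j ∈ G.support, ∑ i ∈ (G.coeff j).support,
    C (C ((G.coeff j).coeff i) * X ^ i) * Y ^ j := by
  conv_lhs => rw [G.as_sum_support_C_mul_X_pow]
  apply Finset.sum_congr rfl
  intro j hj
  rw [← Finset.sum_mul, ← map_sum, ← (G.coeff j).as_sum_support_C_mul_X_pow]

lemma Gam_natDegree (ρ a b : ℕ) (G : L[X][Y]) (hG : G ∈ V ρ L a b) :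
    (Gam ρ G).natDegree ≤ a := by
  rw [mono_expand G, map_sum]
  apply natDegree_sum_le_of_forall_le
  intro j hj
  rw [map_sum]
  apply natDegree_sum_le_of_forall_le
  intro i hi
  rw [Gam_mono]
  refine (natDegree_C_mul_le _ _).trans ?_
  rw [natDegree_X_pow]
  rw [mem_support_iff] at hi
  exact (hG i j hi).2

lemma Gam_pip (ρ d m : ℕ) : Gam ρ (pip d m : L[X][Y]) =
    C (C ((X : L[X]) ^ (m + d))) * (X : Polynomial (L[X][Y])) ^ (m + d)
      - C ((Y : L[X][Y]) ^ (d - 2)) * (X : Polynomial (L[X][Y])) ^ (ρ * (d - 2))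
      - C (C ((X : L[X]) ^ d) * (Y : L[X][Y]) ^ (d - 1)) *
        (X : Polynomial (L[X][Y])) ^ (d + ρ * (d - 1)) := by
  have h1 := Gam_mono (L := L) ρ (m + d) 0 1
  have h2 := Gam_mono (L := L) ρ 0 (d - 2) 1
  have h3 := Gam_mono (L := L) ρ d (d - 1) 1
  simp only [map_one, one_mul, pow_zero, mul_one, mul_zero, add_zero, zero_add] at h1 h2 h3
  unfold pip
  rw [map_sub, map_sub, h1, h2, h3]

lemma Gam_fs (ρ d : ℕ) (lam : L) : Gam ρ (fs ρ d lam) =
    C (C ((X : L[X]) ^ ((1 + ρ) * d))) * (X : Polynomial (L[X][Y])) ^ ((1 + ρ) * d)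
      + C (C (X : L[X])) * (X : Polynomial (L[X][Y]))
      - C (C (C lam))
      + C ((Y : L[X][Y]) ^ (d - 1)) * (X : Polynomial (L[X][Y])) ^ (ρ * (d - 1))
      + C (C ((X : L[X]) ^ d) * (Y : L[X][Y]) ^ d) *
        (X : Polynomial (L[X][Y])) ^ (d + ρ * d) := by
  have h1 := Gam_mono (L := L) ρ ((1 + ρ) * d) 0 1
  have h1' := Gam_mono (L := L) ρ 1 0 1
  have h1'' := Gam_mono (L := L) ρ 0 0 lam
  have h2 := Gam_mono (L := L) ρ 0 (d - 1) 1
  have h3 := Gam_mono (L := L) ρ d d 1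
  simp only [map_one, one_mul, pow_zero, mul_one, mul_zero, add_zero, zero_add, pow_one]
    at h1 h1' h1'' h2 h3
  unfold fs
  rw [map_add, map_add, map_sub C, map_add C, map_sub, map_add, h1, h1', h1'', h2, h3]

lemma Gam_fs_top (ρ d m : ℕ) (lam : L) (hP : Par ρ d m) :
    (Gam ρ (fs ρ d lam)).natDegree = (1 + ρ) * d ∧
    (Gam ρ (fs ρ d lam)).leadingCoeff =
      C ((X : L[X]) ^ ((1 + ρ) * d)) + C ((X : L[X]) ^ d) * (Y : L[X][Y]) ^ d := by
  obtain ⟨hd, hm, hρ⟩ := par_two hP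
  have hle : (Gam ρ (fs ρ d lam)).natDegree ≤ (1 + ρ) * d :=
    Gam_natDegree ρ _ d _ (fs_good ρ d m lam hP).mem
  have e1 : d + ρ * d = (1 + ρ) * d := by ring
  have hρd : ρ * (d - 1) ≤ ρ * d := Nat.mul_le_mul_left _ (by omega)
  have n1 : (1 + ρ) * d ≠ 1 := by nlinarith
  have n2 : (1 + ρ) * d ≠ 0 := by nlinarith
  have n3 : (1 + ρ) * d ≠ ρ * (d - 1) := by nlinarith
  have hc : (Gam ρ (fs ρ d lam)).coeff ((1 + ρ) * d) =
      C ((X : L[X]) ^ ((1 + ρ) * d)) + C ((X : L[X]) ^ d) * (Y : L[X][Y]) ^ d := by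
    rw [Gam_fs, e1]
    rw [coeff_add, coeff_add, coeff_sub, coeff_add, coeff_C_mul, coeff_C_mul, coeff_C_mul,
      coeff_C_mul, coeff_X_pow_self, coeff_X_pow, coeff_C, coeff_X]
    rw [if_neg n3, if_neg n2, if_neg (Ne.symm n1)]
    simp
  have hne : (Gam ρ (fs ρ d lam)).coeff ((1 + ρ) * d) ≠ 0 := by
    rw [hc]
    intro h
    have := congrArg (fun g => Polynomial.coeff g d) h
    simp only [coeff_add, coeff_C_mul, coeff_C, coeff_X_pow_self, coeff_zero, mul_one] at this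
    rw [if_neg (by omega)] at this
    simp at this
  have hdeg : (Gam ρ (fs ρ d lam)).natDegree = (1 + ρ) * d :=
    le_antisymm hle (le_natDegree_of_ne_zero hne)
  refine ⟨hdeg, ?_⟩
  rw [leadingCoeff, hdeg, hc]

lemma top_contra (ρ d m a b : ℕ) (lam c : L) (hP : Par ρ d m) (G H : L[X][Y]) (hc : c ≠ 0)
    (hab : a + b ≤ m + d - 1) (hG : G ∈ V ρ L a b)
    (h : G = C (C c) * pip d m + fs ρ d lam * H) : False := by
  obtain ⟨hd, hm, hρ⟩ := par_two hP
  have hfd := fs_natDegree ρ d lam hd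
  have hf0 : fs ρ d lam ≠ 0 := by
    intro h0
    rw [h0] at hfd
    simp at hfd
    omega
  have hGb : G.natDegree ≤ b := by
    rw [natDegree_le_iff_coeff_eq_zero]
    intro N hN
    ext i
    by_contra hne
    rw [coeff_zero] at hne
    have := (hG i N hne).1
    omega
  have hcp : (C (C c) * pip d m : L[X][Y]).natDegree ≤ d - 1 :=
    (natDegree_C_mul_le _ _).trans (pip_natDegree d m hd)
  by_cases hH : H = 0
  · -- G = c π
    rw [hH, mul_zero, add_zero] at h
    have h1 : (G.coeff 0).coeff (m + d) ≠ 0 := by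
      have hp0 : (pip d m : L[X][Y]).coeff 0 = X ^ (m + d) - (if 0 = d - 2 then (1 : L[X]) else 0) := by
        unfold pip
        rw [coeff_sub, coeff_sub, coeff_C_zero, coeff_C_mul, coeff_X_pow, coeff_X_pow,
          if_neg (by omega : (0 : ℕ) ≠ d - 1), mul_zero, sub_zero]
      have h3 : ((if 0 = d - 2 then (1 : L[X]) else 0)).coeff (m + d) = 0 := by
        split_ifs
        · rw [coeff_one, if_neg (by omega)]
        · simp
      rw [h, coeff_C_mul, hp0, coeff_C_mul, coeff_sub, coeff_X_pow_self, h3]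
      simpa using hc
    have := (hG _ _ h1).2
    omega
  · have h2 : (fs ρ d lam * H).natDegree = d + H.natDegree := by
      rw [natDegree_mul hf0 hH, hfd]
    have h3 : fs ρ d lam * H = G - C (C c) * pip d m := by rw [h]; ring
    have h4 : (fs ρ d lam * H).natDegree ≤ max b (d - 1) := by
      rw [h3]; exact natDegree_sub_le_of_le hGb hcp
    have hbd : d ≤ b := by
      by_contra hlt
      have : max b (d - 1) ≤ d - 1 := max_le (by omega) le_rfl
      omega
    -- compare top weights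
    have hρm : ρ * (d - 1) < m := by
      rcases hP with ⟨h1, _, _⟩ | ⟨h1, h5, h6⟩
      · subst h1; omega
      · subst h1; subst h5; omega
    have k1 : (Gam ρ (G - C (C c) * pip d m)).coeff (m + d) = - (C (C c) * C (X ^ (m + d))) := by
      rw [map_sub, map_mul, Gam_C, g1_C, coeff_sub, coeff_C_mul, Gam_pip]
      rw [coeff_sub, coeff_sub, coeff_C_mul, coeff_C_mul, coeff_C_mul, coeff_X_pow_self,
        coeff_X_pow, coeff_X_pow]
      have e0 : (Gam ρ G).coeff (m + d) = 0 :=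
        coeff_eq_zero_of_natDegree_lt (lt_of_le_of_lt (Gam_natDegree ρ a b G hG) (by omega))
      have e1 : m + d ≠ ρ * (d - 2) := by
        have : ρ * (d - 2) ≤ ρ * (d - 1) := Nat.mul_le_mul_left _ (by omega)
        omega
      have e2 : m + d ≠ d + ρ * (d - 1) := by omega
      rw [e0, if_neg e1, if_neg e2]
      ring
    have k2 : (Gam ρ (G - C (C c) * pip d m)).natDegree ≤ m + d := by
      rw [map_sub, map_mul, Gam_C, g1_C]
      have q0 : (Gam ρ G).natDegree ≤ m + d := (Gam_natDegree ρ a b G hG).trans (by omega)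
      have q1 : (C (C (C c)) * Gam ρ (pip d m) : Polynomial (L[X][Y])).natDegree ≤ m + d := by
        refine (natDegree_C_mul_le _ _).trans ?_
        rw [Gam_pip]
        have r1 : (C (C ((X : L[X]) ^ (m + d))) * (X : Polynomial (L[X][Y])) ^ (m + d)).natDegree
            ≤ m + d := (natDegree_C_mul_le _ _).trans (natDegree_X_pow_le _)
        have r2 : (C ((Y : L[X][Y]) ^ (d - 2)) *
            (X : Polynomial (L[X][Y])) ^ (ρ * (d - 2))).natDegree ≤ m + d := by
          refine ((natDegree_C_mul_le _ _).trans (natDegree_X_pow_le _)).trans ?_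
          have : ρ * (d - 2) ≤ ρ * (d - 1) := Nat.mul_le_mul_left _ (by omega)
          omega
        have r3 : (C (C ((X : L[X]) ^ d) * (Y : L[X][Y]) ^ (d - 1)) *
            (X : Polynomial (L[X][Y])) ^ (d + ρ * (d - 1))).natDegree ≤ m + d :=
          ((natDegree_C_mul_le _ _).trans (natDegree_X_pow_le _)).trans (by omega)
        exact (natDegree_sub_le_of_le (natDegree_sub_le_of_le r1 r2) r3).trans (by simp)
      exact (natDegree_sub_le_of_le q0 q1).trans (by simp)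
    have k3 : (- (C (C c) * C (X ^ (m + d))) : L[X][Y]) ≠ 0 := by
      rw [neg_ne_zero]
      apply mul_ne_zero
      · simpa using hc
      · simp
    have k4 : (Gam ρ (G - C (C c) * pip d m)).natDegree = m + d := by
      apply le_antisymm k2
      apply le_natDegree_of_ne_zero
      rw [k1]; exact k3
    have k5 : (Gam ρ (G - C (C c) * pip d m)).leadingCoeff = - (C (C c) * C (X ^ (m + d))) := by
      rw [leadingCoeff, k4, k1]
    rw [← h3, map_mul, leadingCoeff_mul, (Gam_fs_top ρ d m lam hP).2] at k5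
    have hH0 : (Gam ρ H).leadingCoeff ≠ 0 := by
      intro h0
      rw [h0, mul_zero] at k5
      exact k3 k5.symm
    have k6 := congrArg Polynomial.natDegree k5
    have k7 : (- (C (C c) * C (X ^ (m + d))) : L[X][Y]).natDegree = 0 := by
      rw [natDegree_neg, ← map_mul, natDegree_C]
    have k8 : (C ((X : L[X]) ^ ((1 + ρ) * d)) + C ((X : L[X]) ^ d) * (Y : L[X][Y]) ^ d).natDegree
        ≥ d := by
      apply le_natDegree_of_ne_zero
      rw [coeff_add, coeff_C_mul, coeff_C, if_neg (by omega), coeff_X_pow_self]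
      simp
    have k9 : (C ((X : L[X]) ^ ((1 + ρ) * d)) + C ((X : L[X]) ^ d) * (Y : L[X][Y]) ^ d) ≠ 0 := by
      intro h0
      rw [h0] at k8
      simp at k8
      omega
    rw [natDegree_mul k9 hH0, k7] at k6
    omega

end Pool.Agent.LDP.H38
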